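import Mathlib
import Pool.Agent.Helper930.LnDefs
import Pool.Agent.Helper930.LnJ1
import Pool.Agent.Helper930.LnA

set_option autoImplicit false

open Set MeasureTheory
open Pool.Agent.Helper930.Ln

namespace Pool.Agent.Results.MP_4112db_an.Moduli

/-- The moduli of continuity with property (P): a modulus `w` forces condition (N) for all
continuous `W^{1,n}` maps with modulus `w` if and only if the integral of `eta(t)^n dt/t` over
`0 < t < 1/2` is infinite, where `eta(t)` is the supremum of the positive part of
`log (1/w(s)) / log (1/s)` over `0 < s ≤ t`. -/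
theorem result {n : ℕ} (hn : 2 ≤ n) {w : ℝ → ℝ} (hw : IsModulus w) :
    PropertyP n w ↔
      ∫⁻ t in Ioo (0:ℝ) (1/2), (eta w t) ^ n / ENNReal.ofReal t = ⊤ := by
  constructor
  · intro hP
    by_contra h
    exact dirA hn hw ((crit hn hw.mono hw.pos).mpr h) hP
  · intro h
    by_contra hP
    exact (crit hn hw.mono hw.pos).mp (dirB hn hw hP) h

end Pool.Agent.Results.MP_4112db_an.Moduli
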